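import Pool.Agent.TH581.HH.Stm

/-!
# HH-STAR: the weighted inequality in the direction `e₀`
-/

set_option autoImplicit false

noncomputable section

open MeasureTheory Set
open scoped ENNReal NNReal Pointwise

namespace Pool.Agent.TH674.HH

open Pool.Agent.TH581.HH

variable {m N : ℕ}

/-- the point with first coordinate `t` and the other coordinates `z` -/
def cn (t : ℝ) (z : E m) : E (m + 1) := WithLp.toLp 2 (Fin.cons t (fun i => z i))

lemma cn_zero (t : ℝ) (z : E m) : cn t z 0 = t := rfl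
lemma cn_succ (t : ℝ) (z : E m) (i : Fin m) : cn t z i.succ = z i := rfl
lemma pr_cn (t : ℝ) (z : E m) : pr (cn t z) = z := rfl

lemma cn_pr (x : E (m + 1)) : cn (x 0) (pr x) = x := by
  ext i
  refine Fin.cases rfl (fun j => rfl) i

lemma inner_cn (ν : E (m + 1)) (t : ℝ) (z : E m) :
    inner ℝ ν (cn t z) = ν 0 * t + ∑ j : Fin m, ν j.succ * z j := by
  rw [PiLp.inner_apply, Fin.sum_univ_succ]
  simp only [cn_zero, cn_succ, RCLike.inner_apply, conj_trivial]
  congr 1
  · ring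
  · exact Finset.sum_congr rfl fun j _ => by ring

/-- height over `z` -/
def gg (ν : E (m + 1)) (b : ℝ) (z : E m) : ℝ := (b - ∑ i : Fin m, ν i.succ * z i) / ν 0

lemma hg_eq (ν : E (m + 1)) (b : ℝ) (z : E m) : hg ν b z = cn (gg ν b z) z := rfl

lemma le_iff_pos {ν : E (m + 1)} (h : 0 < ν 0) (b t : ℝ) (z : E m) :
    inner ℝ ν (cn t z) ≤ b ↔ t ≤ gg ν b z := by
  rw [inner_cn, gg, le_div_iff₀ h]
  constructor <;> intro h1 <;> linarith

lemma le_iff_neg {ν : E (m + 1)} (h : ν 0 < 0) (b t : ℝ) (z : E m) :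
    inner ℝ ν (cn t z) ≤ b ↔ gg ν b z ≤ t := by
  rw [inner_cn, gg, div_le_iff_of_neg h]
  constructor <;> intro h1 <;> linarith

lemma cont_gg (ν : E (m + 1)) (b : ℝ) : Continuous (gg ν b) := by
  unfold gg
  fun_prop

lemma cont_cn : Continuous (fun p : ℝ × E m => cn p.1 p.2) := by
  refine (PiLp.continuous_toLp 2 _).comp ?_
  refine continuous_pi fun i => ?_
  refine Fin.cases ?_ (fun j => ?_) i
  · exact continuous_fst
  · show Continuous fun p : ℝ × E m => p.2 j
    fun_prop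

lemma cont_hg (ν : E (m + 1)) (b : ℝ) : Continuous (hg ν b) :=
  cont_cn.comp ((cont_gg ν b).prodMk continuous_id)

/-- base of the `i`-th facet -/
def Si (ν : Fin N → E (m + 1)) (b : Fin N → ℝ) (i : Fin N) : Set (E m) :=
  {z | hg (ν i) (b i) z ∈ Poly ν b}

lemma fac_eq (ν : Fin N → E (m + 1)) (b : Fin N → ℝ) (i : Fin N) (h : ν i 0 ≠ 0) :
    Fac ν b i = hg (ν i) (b i) '' Si ν b i := by
  ext x
  constructor
  · rintro ⟨hx, hi⟩
    have e : hg (ν i) (b i) (pr x) = x := by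
      rw [hg_eq]
      have h1 : gg (ν i) (b i) (pr x) = x 0 := by
        rw [← cn_pr x, inner_cn] at hi
        rw [gg, div_eq_iff h]
        linarith
      rw [h1, cn_pr]
    refine ⟨pr x, ?_, e⟩
    show hg (ν i) (b i) (pr x) ∈ Poly ν b
    rw [e]
    exact hx
  · rintro ⟨z, hz, rfl⟩
    refine ⟨hz, ?_⟩
    rw [hg_eq, inner_cn, gg]
    field_simp
    ring

lemma meas_Si (ν : Fin N → E (m + 1)) (b : Fin N → ℝ) (hG : Good ν b) (i : Fin N) :
    MeasurableSet (Si ν b i) :=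
  (hG.cpt.isClosed.preimage (cont_hg (ν i) (b i))).measurableSet

/-- upward facets -/
def Ip (ν : Fin N → E (m + 1)) : Finset (Fin N) := Finset.univ.filter fun i => 0 < ν i 0
/-- downward facets -/
def Im (ν : Fin N → E (m + 1)) : Finset (Fin N) := Finset.univ.filter fun i => ν i 0 < 0

lemma Ip_ne (ν : Fin N → E (m + 1)) (b : Fin N → ℝ) (hG : Good ν b) : (Ip ν).Nonempty := by
  by_contra hne
  rw [Finset.not_nonempty_iff_eq_empty] at hne
  have hle : ∀ i, ν i 0 ≤ 0 := by
    intro i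
    by_contra hi
    have : i ∈ Ip ν := Finset.mem_filter.2 ⟨Finset.mem_univ _, not_le.1 hi⟩
    rw [hne] at this
    exact absurd this (Finset.notMem_empty i)
  obtain ⟨x, hx⟩ := hG.int.mono interior_subset
  obtain ⟨R, hR⟩ := isBounded_iff_forall_norm_le.1 hG.cpt.isBounded
  have h1 : cn (x 0 + (|R| + |x 0| + 1)) (pr x) ∈ Poly ν b := by
    intro i
    have h2 := hx i
    rw [← cn_pr x, inner_cn] at h2
    rw [inner_cn]
    have h3 : (cn (x 0) (pr x)) 0 = x 0 := rfl
    have h4 : 0 ≤ |R| + |x 0| + 1 := by positivity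
    nlinarith [hle i, mul_nonneg (neg_nonneg.2 (hle i)) h4]
  have h5 := hR _ h1
  have h6 := PiLp.norm_apply_le (cn (x 0 + (|R| + |x 0| + 1)) (pr x)) 0
  rw [cn_zero, Real.norm_eq_abs] at h6
  have h7 := le_abs_self (x 0 + (|R| + |x 0| + 1))
  have h8 := neg_abs_le (x 0)
  have h9 := le_abs_self R
  linarith

lemma Im_ne (ν : Fin N → E (m + 1)) (b : Fin N → ℝ) (hG : Good ν b) : (Im ν).Nonempty := by
  by_contra hne
  rw [Finset.not_nonempty_iff_eq_empty] at hne
  have hle : ∀ i, 0 ≤ ν i 0 := by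
    intro i
    by_contra hi
    have : i ∈ Im ν := Finset.mem_filter.2 ⟨Finset.mem_univ _, not_le.1 hi⟩
    rw [hne] at this
    exact absurd this (Finset.notMem_empty i)
  obtain ⟨x, hx⟩ := hG.int.mono interior_subset
  obtain ⟨R, hR⟩ := isBounded_iff_forall_norm_le.1 hG.cpt.isBounded
  have h1 : cn (x 0 - (|R| + |x 0| + 1)) (pr x) ∈ Poly ν b := by
    intro i
    have h2 := hx i
    rw [← cn_pr x, inner_cn] at h2
    rw [inner_cn]
    have h3 : (cn (x 0) (pr x)) 0 = x 0 := rfl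
    have h4 : 0 ≤ |R| + |x 0| + 1 := by positivity
    nlinarith [hle i, mul_nonneg (hle i) h4]
  have h5 := hR _ h1
  have h6 := PiLp.norm_apply_le (cn (x 0 - (|R| + |x 0| + 1)) (pr x)) 0
  rw [cn_zero, Real.norm_eq_abs] at h6
  have h7 := neg_abs_le (x 0 - (|R| + |x 0| + 1))
  have h8 := le_abs_self (x 0)
  have h9 := le_abs_self R
  linarith

/-- top of the fibre -/
def tp (ν : Fin N → E (m + 1)) (b : Fin N → ℝ) (h : (Ip ν).Nonempty) (z : E m) : ℝ :=
  (Ip ν).inf' h fun i => gg (ν i) (b i) z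

/-- bottom of the fibre -/
def bt (ν : Fin N → E (m + 1)) (b : Fin N → ℝ) (h : (Im ν).Nonempty) (z : E m) : ℝ :=
  (Im ν).sup' h fun i => gg (ν i) (b i) z

lemma cont_tp (ν : Fin N → E (m + 1)) (b : Fin N → ℝ) (h : (Ip ν).Nonempty) :
    Continuous (tp ν b h) :=
  Continuous.finset_inf'_apply h fun i _ => cont_gg (ν i) (b i)

lemma cont_bt (ν : Fin N → E (m + 1)) (b : Fin N → ℝ) (h : (Im ν).Nonempty) :
    Continuous (bt ν b h) :=
  Continuous.finset_sup'_apply h fun i _ => cont_gg (ν i) (b i)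

lemma fibre (ν : Fin N → E (m + 1)) (b : Fin N → ℝ) (hp : (Ip ν).Nonempty) (hm : (Im ν).Nonempty)
    {z : E m} (hz : z ∈ pr '' Poly ν b) (t : ℝ) :
    cn t z ∈ Poly ν b ↔ t ∈ Icc (bt ν b hm z) (tp ν b hp z) := by
  obtain ⟨x, hx, rfl⟩ := hz
  rw [mem_Icc, tp, bt, Finset.le_inf'_iff, Finset.sup'_le_iff]
  constructor
  · intro h
    exact ⟨fun i hi => (le_iff_neg (Finset.mem_filter.1 hi).2 _ _ _).1 (h i),
      fun i hi => (le_iff_pos (Finset.mem_filter.1 hi).2 _ _ _).1 (h i)⟩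
  · rintro ⟨h1, h2⟩ i
    rcases lt_trichotomy (ν i 0) 0 with h | h | h
    · exact (le_iff_neg h _ _ _).2 (h1 i (Finset.mem_filter.2 ⟨Finset.mem_univ _, h⟩))
    · have h3 := hx i
      rw [← cn_pr x, inner_cn, h, zero_mul] at h3
      rw [inner_cn, h, zero_mul]
      exact h3
    · exact (le_iff_pos h _ _ _).2 (h2 i (Finset.mem_filter.2 ⟨Finset.mem_univ _, h⟩))

lemma bt_le_tp (ν : Fin N → E (m + 1)) (b : Fin N → ℝ) (hp : (Ip ν).Nonempty)
    (hm : (Im ν).Nonempty) {z : E m} (hz : z ∈ pr '' Poly ν b) : bt ν b hm z ≤ tp ν b hp z := by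
  obtain ⟨x, hx, hxz⟩ := hz
  have h1 : cn (x 0) z ∈ Poly ν b := by
    rw [← hxz, cn_pr]
    exact hx
  have h2 := (fibre ν b hp hm ⟨x, hx, hxz⟩ (x 0)).1 h1
  exact h2.1.trans h2.2

/-- one-dimensional Hermite-Hadamard inequality -/
lemma hh1 (φ : ℝ → ℝ) (a c : ℝ) (hac : a ≤ c) (hφ : Continuous φ) (h0 : ∀ t, 0 ≤ φ t)
    (hconv : ConvexOn ℝ (Icc a c) φ) :
    2 * ∫⁻ t in Icc a c, ENNReal.ofReal (φ t) ≤
      ENNReal.ofReal (c - a) * (ENNReal.ofReal (φ c) + ENNReal.ofReal (φ a)) := by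
  have hmp := Measure.measurePreserving_sub_left (volume : Measure ℝ) (a + c)
  have hpre : (fun t : ℝ => a + c - t) ⁻¹' (Icc a c) = Icc a c := by
    ext t
    simp only [mem_preimage, mem_Icc]
    constructor <;> rintro ⟨h1, h2⟩ <;> constructor <;> linarith
  have hsym := hmp.setLIntegral_comp_preimage (s := Icc a c) measurableSet_Icc
    (f := fun t => ENNReal.ofReal (φ t)) (by fun_prop)
  rw [hpre] at hsym
  have hpt : ∀ t ∈ Icc a c, ENNReal.ofReal (φ t) + ENNReal.ofReal (φ (a + c - t)) ≤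
      ENNReal.ofReal (φ c) + ENNReal.ofReal (φ a) := by
    intro t ht
    rw [← ENNReal.ofReal_add (h0 _) (h0 _), ← ENNReal.ofReal_add (h0 _) (h0 _)]
    refine ENNReal.ofReal_le_ofReal ?_
    rw [← segment_eq_Icc hac] at ht
    obtain ⟨α, β, hα, hβ, hαβ, rfl⟩ := ht
    have h1 := hconv.2 (left_mem_Icc.2 hac) (right_mem_Icc.2 hac) hα hβ hαβ
    have h2 := hconv.2 (left_mem_Icc.2 hac) (right_mem_Icc.2 hac) hβ hα (by linarith)
    have h3 : a + c - (α • a + β • c) = β • a + α • c := by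
      simp only [smul_eq_mul]
      have : α = 1 - β := by linarith
      rw [this]
      ring
    rw [h3]
    simp only [smul_eq_mul] at h1 h2 ⊢
    have : α = 1 - β := by linarith
    subst this
    nlinarith
  calc 2 * ∫⁻ t in Icc a c, ENNReal.ofReal (φ t)
      = ∫⁻ t in Icc a c, (ENNReal.ofReal (φ t) + ENNReal.ofReal (φ (a + c - t))) := by
        rw [lintegral_add_left (by fun_prop), hsym, two_mul]
    _ ≤ ∫⁻ _ in Icc a c, (ENNReal.ofReal (φ c) + ENNReal.ofReal (φ a)) :=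
        setLIntegral_mono' measurableSet_Icc hpt
    _ = _ := by
        rw [lintegral_const, Measure.restrict_apply_univ, Real.volume_Icc, mul_comm]

/-- `cn` preserves the measure -/
lemma mp_cn : MeasurePreserving (fun p : ℝ × E m => cn p.1 p.2) := by
  have e1 := (volume_preserving_piFinSuccAbove (fun _ : Fin (m + 1) => ℝ) 0).symm
  have e2 := PiLp.volume_preserving_toLp (Fin (m + 1))
  have e3 : MeasurePreserving (Prod.map id (@WithLp.ofLp 2 (Fin m → ℝ)) : ℝ × E m → _)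
      volume volume :=
    (MeasurePreserving.id (volume : Measure ℝ)).prod (PiLp.volume_preserving_ofLp (Fin m))
  have e := (e2.comp e1).comp e3
  have hfun : (fun p : ℝ × E m => cn p.1 p.2) =
      ((@WithLp.toLp 2 (Fin (m + 1) → ℝ)) ∘
        ⇑(MeasurableEquiv.piFinSuccAbove (fun _ : Fin (m + 1) => ℝ) 0).symm) ∘
        (Prod.map id (@WithLp.ofLp 2 (Fin m → ℝ)) : ℝ × E m → _) := by
    funext p
    ext i
    refine Fin.cases ?_ (fun j => ?_) i <;> rfl
  rw [hfun]
  exact e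

lemma fub (P : Set (E (m + 1))) (hP : MeasurableSet P) (F : E (m + 1) → ℝ≥0∞)
    (hF : Measurable F) :
    ∫⁻ x in P, F x = ∫⁻ z : E m, ∫⁻ t in {t : ℝ | cn t z ∈ P}, F (cn t z) := by
  have h1 := (mp_cn (m := m)).setLIntegral_comp_preimage hP hF
  rw [← h1]
  have hA : MeasurableSet ((fun p : ℝ × E m => cn p.1 p.2) ⁻¹' P) :=
    (cont_cn (m := m)).measurable hP
  rw [← lintegral_indicator hA, Measure.volume_eq_prod, lintegral_prod_symm']
  · refine lintegral_congr fun z => ?_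
    have hB : MeasurableSet {t : ℝ | cn t z ∈ P} :=
      ((cont_cn (m := m)).comp (Continuous.prodMk_left z)).measurable hP
    rw [← lintegral_indicator hB]
    rfl
  · exact (hF.comp (cont_cn (m := m)).measurable).indicator hA

lemma gg_aff (ν : E (m + 1)) (b c : ℝ) (p q r : E m) :
    gg ν b (c • (p -ᵥ q) +ᵥ r) = c * (gg ν b p - gg ν b q) + gg ν b r := by
  have h : ∑ i : Fin m, ν i.succ * (c • (p -ᵥ q) +ᵥ r : E m) i =
      c * (∑ i : Fin m, ν i.succ * p i - ∑ i : Fin m, ν i.succ * q i) +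
        ∑ i : Fin m, ν i.succ * r i := by
    rw [← Finset.sum_sub_distrib, Finset.mul_sum, ← Finset.sum_add_distrib]
    refine Finset.sum_congr rfl fun i _ => ?_
    show ν i.succ * (c * (p i - q i) + r i) = _
    ring
  rw [gg, h, gg, gg, gg]
  ring

lemma ov (ν : Fin N → E (m + 1)) (b : Fin N → ℝ) (hG : Good ν b) {i j : Fin N} (hij : i ≠ j)
    (hs : 0 < ν i 0 * ν j 0) :
    volume {z : E m | gg (ν i) (b i) z = gg (ν j) (b j) z} = 0 := by
  have hi : ν i 0 ≠ 0 := fun h => by rw [h, zero_mul] at hs; exact lt_irrefl _ hs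
  have hj : ν j 0 ≠ 0 := fun h => by rw [h, mul_zero] at hs; exact lt_irrefl _ hs
  let A : AffineSubspace ℝ (E m) :=
    { carrier := {z : E m | gg (ν i) (b i) z = gg (ν j) (b j) z}
      smul_vsub_vadd_mem' := by
        intro c p q r hp hq hr
        show gg (ν i) (b i) _ = gg (ν j) (b j) _
        have hp' : gg (ν i) (b i) p = gg (ν j) (b j) p := hp
        have hq' : gg (ν i) (b i) q = gg (ν j) (b j) q := hq
        have hr' : gg (ν i) (b i) r = gg (ν j) (b j) r := hr
        rw [gg_aff, gg_aff, hp', hq', hr'] }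
  refine Measure.addHaar_affineSubspace volume A ?_
  intro htop
  have hall : ∀ z : E m, gg (ν i) (b i) z = gg (ν j) (b j) z := by
    intro z
    have : z ∈ A := by rw [htop]; trivial
    exact this
  have h0 := hall 0
  have h0' : b i / ν i 0 = b j / ν j 0 := by
    simpa [gg] using h0
  have hk : ∀ k : Fin m, ν i k.succ / ν i 0 = ν j k.succ / ν j 0 := by
    intro k
    have h1 := hall (EuclideanSpace.single k 1)
    have h2 : ∀ ν : E (m + 1), ∑ l : Fin m, ν l.succ * (EuclideanSpace.single k (1 : ℝ)) l =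
        ν k.succ := by
      intro ν
      rw [Finset.sum_eq_single k]
      · simp
      · intro l _ hl
        simp [hl]
      · intro h
        exact absurd (Finset.mem_univ _) h
    rw [gg, gg, h2, h2, sub_div, sub_div, h0'] at h1
    linarith
  set c : ℝ := ν i 0 / ν j 0 with hc
  have hcpos : 0 < c := by
    rw [hc]
    have h3 : 0 < ν i 0 * ν j 0 / (ν j 0 * ν j 0) := div_pos hs (mul_self_pos.2 hj)
    have h4 : ν i 0 * ν j 0 / (ν j 0 * ν j 0) = ν i 0 / ν j 0 := by
      field_simp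
    rw [h4] at h3
    exact h3
  have hcν : ν i = c • ν j := by
    ext l
    refine Fin.cases ?_ (fun k => ?_) l
    · show ν i 0 = c * ν j 0
      rw [hc]
      field_simp
    · show ν i k.succ = c * ν j k.succ
      have := hk k
      rw [hc]
      field_simp at this ⊢
      linarith
  have hn := hG.unit i
  rw [hcν, norm_smul, hG.unit j, mul_one, Real.norm_eq_abs, abs_of_pos hcpos] at hn
  have h5 : ν i = ν j := by rw [hcν, hn, one_smul]
  refine hij (hG.inj i j h5 ?_)
  have h6 : ν i 0 = ν j 0 := by rw [h5]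
  rw [h6] at h0'
  field_simp at h0'
  exact h0'

lemma Si_sub (ν : Fin N → E (m + 1)) (b : Fin N → ℝ) (i : Fin N) :
    Si ν b i ⊆ pr '' Poly ν b := fun z hz => ⟨hg (ν i) (b i) z, hz, rfl⟩

lemma sum_vol (ν : Fin N → E (m + 1)) (b : Fin N → ℝ) (hG : Good ν b) (I : Finset (Fin N))
    (hI : ∀ i ∈ I, ∀ j ∈ I, 0 < ν i 0 * ν j 0) :
    ∑ i ∈ I, volume (Si ν b i) ≤ volume (pr '' Poly ν b) := by
  rw [← measure_biUnion_finset₀]
  · exact measure_mono (iUnion₂_subset fun i _ => Si_sub ν b i)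
  · intro i hi j hj hij
    refine measure_mono_null ?_ (ov ν b hG hij (hI i hi j hj))
    rintro z ⟨hzi, hzj⟩
    have h1 : inner ℝ (ν j) (cn (gg (ν i) (b i) z) z) ≤ b j := hzi j
    have h2 : inner ℝ (ν i) (cn (gg (ν j) (b j) z) z) ≤ b i := hzj i
    show gg (ν i) (b i) z = gg (ν j) (b j) z
    rcases lt_trichotomy (ν i 0) 0 with h | h | h
    · have h' : ν j 0 < 0 := by
        have := hI i hi j hj
        nlinarith
      rw [le_iff_neg h'] at h1
      rw [le_iff_neg h] at h2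
      exact le_antisymm h2 h1
    · have := hI i hi j hj
      rw [h, zero_mul] at this
      exact absurd this (lt_irrefl _)
    · have h' : 0 < ν j 0 := by
        have := hI i hi j hj
        nlinarith
      rw [le_iff_pos h'] at h1
      rw [le_iff_pos h] at h2
      exact le_antisymm h1 h2
  · intro i _
    exact (meas_Si ν b hG i).nullMeasurableSet

lemma split (ν : Fin N → E (m + 1)) (X : Fin N → ℝ≥0∞) :
    ∑ i, ENNReal.ofReal |ν i 0| * X i =
      ∑ i ∈ Ip ν, ENNReal.ofReal |ν i 0| * X i + ∑ i ∈ Im ν, ENNReal.ofReal |ν i 0| * X i := by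
  rw [Ip, Im, Finset.sum_filter, Finset.sum_filter, ← Finset.sum_add_distrib]
  refine Finset.sum_congr rfl fun i _ => ?_
  rcases lt_trichotomy (ν i 0) 0 with h | h | h
  · rw [if_neg (not_lt.2 h.le), if_pos h, zero_add]
  · rw [if_neg (by rw [h]; exact lt_irrefl _), if_neg (by rw [h]; exact lt_irrefl _), h]
    simp
  · rw [if_pos h, if_neg (not_lt.2 h.le), add_zero]

lemma cover (ν : Fin N → E (m + 1)) (b : Fin N → ℝ) (hG : Good ν b) (I : Finset (Fin N))
    (τ : E m → ℝ) (F : E (m + 1) → ℝ≥0∞) (hF : Measurable F)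
    (h : ∀ z ∈ pr '' Poly ν b, ∃ i ∈ I, z ∈ Si ν b i ∧ τ z = gg (ν i) (b i) z)
    (hS : MeasurableSet (pr '' Poly ν b)) :
    ∫⁻ z in pr '' Poly ν b, F (cn (τ z) z) ≤
      ∑ i ∈ I, ∫⁻ z in Si ν b i, F (hg (ν i) (b i) z) := by
  have h1 : ∀ i ∈ I, ∫⁻ z in Si ν b i, F (hg (ν i) (b i) z) =
      ∫⁻ z, (Si ν b i).indicator (fun z => F (hg (ν i) (b i) z)) z := fun i _ =>
    (lintegral_indicator (meas_Si ν b hG i) _).symm
  rw [Finset.sum_congr rfl h1, ← lintegral_finsetSum, ← lintegral_indicator hS]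
  · refine lintegral_mono fun z => ?_
    by_cases hz : z ∈ pr '' Poly ν b
    · rw [indicator_of_mem hz]
      obtain ⟨i, hi, hzi, he⟩ := h z hz
      have h2 : F (cn (τ z) z) = (Si ν b i).indicator (fun z => F (hg (ν i) (b i) z)) z := by
        rw [indicator_of_mem hzi, he, hg_eq]
      rw [h2]
      exact Finset.single_le_sum
        (f := fun i => (Si ν b i).indicator (fun z => F (hg (ν i) (b i) z)) z)
        (fun _ _ => zero_le) hi
    · rw [indicator_of_notMem hz]
      exact zero_le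
  · intro i _
    exact (hF.comp (cont_hg (ν i) (b i)).measurable).indicator (meas_Si ν b hG i)

lemma conv_poly (ν : Fin N → E (m + 1)) (b : Fin N → ℝ) : Convex ℝ (Poly ν b) := by
  intro x hx y hy α β hα hβ hαβ i
  rw [inner_add_right, inner_smul_right, inner_smul_right]
  have h1 := hx i
  have h2 := hy i
  have h3 : b i = α * b i + β * b i := by rw [← add_mul, hαβ, one_mul]
  rw [h3]
  exact add_le_add (mul_le_mul_of_nonneg_left h1 hα) (mul_le_mul_of_nonneg_left h2 hβ)

lemma cn_comb (α β s t : ℝ) (hαβ : α + β = 1) (z : E m) :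
    cn (α • s + β • t) z = α • cn s z + β • cn t z := by
  ext i
  refine Fin.cases ?_ (fun j => ?_) i
  · rfl
  · show z j = α * z j + β * z j
    rw [← add_mul, hαβ, one_mul]

lemma hor (ν : Fin N → E (m + 1)) (b : Fin N → ℝ) (hG : Good ν b)
    (hp : (Ip ν).Nonempty) (hm : (Im ν).Nonempty) (hS : MeasurableSet (pr '' Poly ν b))
    (f : E (m + 1) → ℝ) (hf : Continuous f) (h0 : ∀ x, 0 ≤ f x)
    (hconv : ConvexOn ℝ (Poly ν b) f) :
    2 * ∫⁻ x in Poly ν b, ENNReal.ofReal (f x) ≤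
      ∫⁻ z in pr '' Poly ν b, ENNReal.ofReal (tp ν b hp z - bt ν b hm z) *
        (ENNReal.ofReal (f (cn (tp ν b hp z) z)) + ENNReal.ofReal (f (cn (bt ν b hm z) z))) := by
  rw [fub (Poly ν b) hG.cpt.isClosed.measurableSet _ (by fun_prop),
    ← lintegral_const_mul' _ _ (by simp), ← lintegral_indicator hS]
  refine lintegral_mono fun z => ?_
  by_cases hz : z ∈ pr '' Poly ν b
  · rw [indicator_of_mem hz]
    have h1 : {t : ℝ | cn t z ∈ Poly ν b} = Icc (bt ν b hm z) (tp ν b hp z) := by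
      ext t
      exact fibre ν b hp hm hz t
    rw [h1]
    refine hh1 (fun t => f (cn t z)) _ _ (bt_le_tp ν b hp hm hz) ?_ (fun t => h0 _) ?_
    · exact hf.comp (cont_cn.comp (Continuous.prodMk_left z))
    · refine ⟨convex_Icc _ _, ?_⟩
      intro s hs t ht α β hα hβ hαβ
      have h2 := hconv.2 ((fibre ν b hp hm hz s).2 hs) ((fibre ν b hp hm hz t).2 ht) hα hβ hαβ
      rw [← cn_comb α β s t hαβ z] at h2
      exact h2
  · rw [indicator_of_notMem hz]
    have h1 : {t : ℝ | cn t z ∈ Poly ν b} = ∅ := by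
      ext t
      constructor
      · intro ht
        exact absurd ⟨cn t z, ht, pr_cn t z⟩ hz
      · intro ht
        exact absurd ht (notMem_empty t)
    rw [h1]
    simp

theorem t_star (hF : S_FAC) (hC : S_CONE) : S_STAR := by
  intro m N ν b hG f hf h0 hconv
  have hp := Ip_ne ν b hG
  have hm := Im_ne ν b hG
  have hScpt : IsCompact (pr '' Poly ν b) := hG.cpt.image lip_pr.continuous
  have hS : MeasurableSet (pr '' Poly ν b) := hScpt.isClosed.measurableSet
  have hFm : Measurable fun x => ENNReal.ofReal (f x) := by fun_prop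
  have hfac : ∀ i, ν i 0 ≠ 0 → ∀ g : E (m + 1) → ℝ≥0∞, Measurable g →
      ENNReal.ofReal |ν i 0| * ∫⁻ x in Fac ν b i, g x ∂(μHE[m] : Measure (E (m + 1))) =
        ∫⁻ z in Si ν b i, g (hg (ν i) (b i) z) := by
    intro i hi g hg'
    rw [fac_eq ν b i hi]
    exact hF m (ν i) (b i) (hG.unit i) hi (Si ν b i) (meas_Si ν b hG i) g hg'
  have hvol : ∀ i, ν i 0 ≠ 0 →
      ENNReal.ofReal |ν i 0| * (μHE[m] : Measure (E (m + 1))) (Fac ν b i) =
        volume (Si ν b i) := by
    intro i hi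
    have := hfac i hi (fun _ => 1) measurable_const
    rwa [setLIntegral_one, setLIntegral_one] at this
  have hIp : ∀ i ∈ Ip ν, 0 < ν i 0 := fun i hi => (Finset.mem_filter.1 hi).2
  have hIm : ∀ i ∈ Im ν, ν i 0 < 0 := fun i hi => (Finset.mem_filter.1 hi).2
  have hA : ∑ i, ENNReal.ofReal |ν i 0| * (μHE[m] : Measure (E (m + 1))) (Fac ν b i) ≤
      volume (pr '' Poly ν b) + volume (pr '' Poly ν b) := by
    rw [split]
    refine add_le_add ?_ ?_
    · rw [Finset.sum_congr rfl fun i hi => hvol i (hIp i hi).ne']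
      exact sum_vol ν b hG _ fun i hi j hj => mul_pos (hIp i hi) (hIp j hj)
    · rw [Finset.sum_congr rfl fun i hi => hvol i (hIm i hi).ne]
      exact sum_vol ν b hG _ fun i hi j hj => mul_pos_of_neg_of_neg (hIm i hi) (hIm j hj)
  have hB : ∑ i, ENNReal.ofReal |ν i 0| *
        ∫⁻ x in Fac ν b i, ENNReal.ofReal (f x) ∂(μHE[m] : Measure (E (m + 1))) =
      (∑ i ∈ Ip ν, ∫⁻ z in Si ν b i, ENNReal.ofReal (f (hg (ν i) (b i) z))) +
        (∑ i ∈ Im ν, ∫⁻ z in Si ν b i, ENNReal.ofReal (f (hg (ν i) (b i) z))) := by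
    rw [split]
    congr 1
    · exact Finset.sum_congr rfl fun i hi => hfac i (hIp i hi).ne' _ hFm
    · exact Finset.sum_congr rfl fun i hi => hfac i (hIm i hi).ne _ hFm
  have htop : ∫⁻ z in pr '' Poly ν b, ENNReal.ofReal (f (cn (tp ν b hp z) z)) ≤
      ∑ i ∈ Ip ν, ∫⁻ z in Si ν b i, ENNReal.ofReal (f (hg (ν i) (b i) z)) := by
    refine cover ν b hG (Ip ν) (tp ν b hp) (fun x => ENNReal.ofReal (f x)) hFm ?_ hS
    intro z hz
    obtain ⟨i, hi, he⟩ := Finset.exists_mem_eq_inf' hp fun i => gg (ν i) (b i) z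
    refine ⟨i, hi, ?_, he⟩
    show hg (ν i) (b i) z ∈ Poly ν b
    rw [hg_eq, ← he]
    exact (fibre ν b hp hm hz _).2 ⟨bt_le_tp ν b hp hm hz, le_rfl⟩
  have hbot : ∫⁻ z in pr '' Poly ν b, ENNReal.ofReal (f (cn (bt ν b hm z) z)) ≤
      ∑ i ∈ Im ν, ∫⁻ z in Si ν b i, ENNReal.ofReal (f (hg (ν i) (b i) z)) := by
    refine cover ν b hG (Im ν) (bt ν b hm) (fun x => ENNReal.ofReal (f x)) hFm ?_ hS
    intro z hz
    obtain ⟨i, hi, he⟩ := Finset.exists_mem_eq_sup' hm fun i => gg (ν i) (b i) z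
    refine ⟨i, hi, ?_, he⟩
    show hg (ν i) (b i) z ∈ Poly ν b
    rw [hg_eq, ← he]
    exact (fibre ν b hp hm hz _).2 ⟨le_rfl, bt_le_tp ν b hp hm hz⟩
  have hcone : ∀ z ∈ pr '' Poly ν b,
      volume (pr '' Poly ν b) * ENNReal.ofReal (tp ν b hp z - bt ν b hm z) ≤
        (m + 1 : ℕ) * volume (Poly ν b) := by
    intro z hz
    refine hC m (Poly ν b) hG.cpt (conv_poly ν b) z (bt ν b hm z) _
      (sub_nonneg.2 (bt_le_tp ν b hp hm hz)) ?_
    intro t ht
    refine (fibre ν b hp hm hz t).2 ⟨ht.1, ?_⟩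
    have := ht.2
    linarith
  have hmt : Measurable fun z : E m => ENNReal.ofReal (f (cn (tp ν b hp z) z)) :=
    hFm.comp (cont_cn.comp ((cont_tp ν b hp).prodMk continuous_id)).measurable
  have hmb : Measurable fun z : E m => ENNReal.ofReal (f (cn (bt ν b hm z) z)) :=
    hFm.comp (cont_cn.comp ((cont_bt ν b hm).prodMk continuous_id)).measurable
  calc (∑ i, ENNReal.ofReal |ν i 0| * (μHE[m] : Measure (E (m + 1))) (Fac ν b i)) *
        ∫⁻ x in Poly ν b, ENNReal.ofReal (f x)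
      ≤ (volume (pr '' Poly ν b) + volume (pr '' Poly ν b)) *
          ∫⁻ x in Poly ν b, ENNReal.ofReal (f x) := mul_le_mul_left hA _
    _ = volume (pr '' Poly ν b) * (2 * ∫⁻ x in Poly ν b, ENNReal.ofReal (f x)) := by ring
    _ ≤ volume (pr '' Poly ν b) *
        ∫⁻ z in pr '' Poly ν b, ENNReal.ofReal (tp ν b hp z - bt ν b hm z) *
          (ENNReal.ofReal (f (cn (tp ν b hp z) z)) +
            ENNReal.ofReal (f (cn (bt ν b hm z) z))) :=
        mul_le_mul_right (hor ν b hG hp hm hS f hf h0 hconv) _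
    _ ≤ ∫⁻ z in pr '' Poly ν b, volume (pr '' Poly ν b) *
          (ENNReal.ofReal (tp ν b hp z - bt ν b hm z) *
          (ENNReal.ofReal (f (cn (tp ν b hp z) z)) +
            ENNReal.ofReal (f (cn (bt ν b hm z) z)))) := lintegral_const_mul_le _ _
    _ ≤ ∫⁻ z in pr '' Poly ν b, ((m + 1 : ℕ) * volume (Poly ν b)) *
          (ENNReal.ofReal (f (cn (tp ν b hp z) z)) +
            ENNReal.ofReal (f (cn (bt ν b hm z) z))) := by
        refine setLIntegral_mono' hS fun z hz => ?_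
        rw [← mul_assoc]
        exact mul_le_mul_left (hcone z hz) _
    _ = ((m + 1 : ℕ) * volume (Poly ν b)) *
          ((∫⁻ z in pr '' Poly ν b, ENNReal.ofReal (f (cn (tp ν b hp z) z))) +
            (∫⁻ z in pr '' Poly ν b, ENNReal.ofReal (f (cn (bt ν b hm z) z)))) := by
        rw [← lintegral_add_left hmt]
        exact lintegral_const_mul _ (hmt.add hmb)
    _ ≤ _ := by
        rw [hB]
        exact mul_le_mul_right (add_le_add htop hbot) _

end Pool.Agent.TH674.HH
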